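import Pool.Agent.MP_3e91a1_nt.DS.St
import Pool.Agent.MP_3e91a1_nt.DS.Fin
import Pool.Agent.MP_3e91a1_nt.Stm2
import Pool.Agent.MP_3e91a1_nt.Brg

/-! The descent to subfields. -/

set_option autoImplicit false

open Filter NumberField Finset

namespace Pool.Agent.MP_3e91a1_nt.DS

open TR GN FM CC MP_e23604_nt MP_e23604_nt.B MP_e23604_nt.R MP_f3cd89_nt

/-- the descent -/
def DSN_st : Prop := ∀ (p : ℕ) [Fact p.Prime] (k K : IntermediateField ℚ Qb) [NumberField k],
  Gd p k → PExt p k (k ⊔ K) → WL.WeakLeopoldtP p K Qb k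

theorem aux_DSN (hGOOD : GOOD_st) (hMEM : MEM_st) (hTRN : TRN_st) (hISO : ISO_st) (hIDX : IDX_st)
    (hIXW : IXW_st) (hTPW : TPW_st) (hACT : ACT_st) (hDVP : DVP_st) (p : ℕ) [hp : Fact p.Prime]
    (k K : IntermediateField ℚ Qb) [NumberField k] (hg : Gd p k) (hP : PExt p k (k ⊔ K))
    (S : Set (Pr K)) (F : IntermediateField ℚ_[p] (PadicAlgCl p)) (hS : S.Finite)
    (hpS : primesAbove K p ⊆ S) (hk : ∀ x ∈ k, x ∈ maxUnr K S)
    (κ : GalS K S →* Multiplicative ℤ_[p]) (d : ℕ) (ρ : GalS K S →* GL (Fin d) (valRing F))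
    (hκ : Continuous κ) (hsur : Function.Surjective κ)
    (hfin : ∀ v ∈ S, (v.asIdeal.primesOver (𝓞 (IntermediateField.fixedField κ.ker))).Finite)
    (hρ : Continuous ρ) (hres : ∀ g : GalS K S, (∀ x : maxUnr K S, (x : Qb) ∈ k → g x = x) →
      ∃ n : ℕ, ∀ i j, ‖(((ρ (g ^ p ^ n) i j -
        (1 : Matrix (Fin d) (Fin d) (valRing F)) i j : valRing F) : F) : PadicAlgCl p)‖ < 1) :
    H2Zero fun (g : κ.ker) (x : DivMod F d) => matAct (ρ g) x := by
  obtain ⟨_, h2, hlt, hG⟩ := hg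
  have : NeZero p := ⟨hp.out.ne_zero⟩
  obtain ⟨ζ, hζ⟩ := HasEnoughRootsOfUnity.exists_primitiveRoot Qb p
  obtain ⟨r', hr⟩ := HasEnoughRootsOfUnity.exists_primitiveRoot (ZMod p) (p - 1)
  obtain ⟨r, rfl⟩ := ZMod.natCast_zmod_surjective r'
  have r0 : (r : ZMod p) ≠ 0 := hr.ne_zero (by omega)
  have r1 : (r : ZMod p) ≠ 1 := hr.ne_one (by omega)
  have := (hGOOD p ζ r 0 _ _ hP).1
  have : FiniteDimensional ℚ K :=
    FiniteDimensional.of_injective (IntermediateField.inclusion (le_sup_right : K ≤ k ⊔ K)).toLinearMap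
      (IntermediateField.inclusion_injective le_sup_right)
  have G0 := (hGOOD p ζ r _ _ _ hP).2 (by omega) hζ hr r0 r1 (hG ζ r hζ hr)
  obtain ⟨W, hWo, hW, hW0, hWi⟩ := hIXW K k S hk
  have hnd : ¬ p ∣ W.index := fun h => by
    have := Nat.le_of_dvd (Nat.pos_of_ne_zero hW0) h
    omega
  obtain ⟨hs', hidx⟩ := hIDX p (GalS K S) κ W hsur hnd
  have hH := hTPW p K k S κ W ζ r (by omega) hk hWo hW hW0 (by omega) hS hpS hκ hsur hs' hfin hζ hr
    r1 G0
  have := (hMEM K S).1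
  have cK : IsClosed (κ ⁻¹' {1}) := isClosed_singleton.preimage hκ
  have : CompactSpace κ.ker := isCompact_iff_compactSpace.1 cK.isCompact
  have : CompactSpace W := isCompact_iff_compactSpace.1 (W.isClosed_of_isOpen hWo).isCompact
  have : CompactSpace (κ.comp W.subtype).ker := isCompact_iff_compactSpace.1
    (isClosed_singleton.preimage (hκ.comp continuous_subtype_val) :
      IsClosed ((κ.comp W.subtype) ⁻¹' {1})).isCompact
  obtain ⟨a1, a2, a3, a4, -⟩ := hACT p F d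
  have h1 := hDVP p (κ.comp W.subtype).ker F d
    ((ρ.comp W.subtype).comp (κ.comp W.subtype).ker.subtype)
    (hρ.comp (continuous_subtype_val.comp continuous_subtype_val))
    (fun g => hres g.1.1 ((hW _).1 g.1.2)) hH
  let e : (κ.comp W.subtype).ker ≃* W.subgroupOf κ.ker :=
    { toFun := fun g => ⟨⟨g.1.1, g.2⟩, g.1.2⟩
      invFun := fun g => ⟨⟨g.1.1, g.2⟩, g.1.2⟩
      left_inv := fun _ => rfl
      right_inv := fun _ => rfl
      map_mul' := fun _ _ => rfl }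
  refine hTRN p κ.ker (DivMod F d) (fun g x => matAct (ρ g) x) (W.subgroupOf κ.ker) hp.out
    (hWo.preimage continuous_subtype_val) (hidx ▸ hnd) (fun g => a2 _)
    (fun g h x => by rw [Subgroup.coe_mul, map_mul, a3]) (fun x => by
      rw [Subgroup.coe_one, map_one, a4]) a1
    (hISO _ _ _ e (fun g x => matAct (ρ g) x) ?_ ?_ h1)
  · exact ((continuous_subtype_val.comp continuous_subtype_val).subtype_mk _).subtype_mk _
  · exact ((continuous_subtype_val.comp continuous_subtype_val).subtype_mk _).subtype_mk _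

theorem DSN_pf (hGOOD : GOOD_st) (hMEM : MEM_st) (hTRN : TRN_st) (hISO : ISO_st) (hIDX : IDX_st)
    (hIXW : IXW_st) (hTPW : TPW_st) (hACT : ACT_st) (hDVP : DVP_st) : DSN_st :=
  fun p _ k K _ hg hP S F hS hpS hk κ d ρ hκ hsur hfin hρ hres =>
    aux_DSN hGOOD hMEM hTRN hISO hIDX hIXW hTPW hACT hDVP p k K hg hP S F hS hpS hk κ d ρ hκ hsur
      hfin hρ fun g h => (hres g h).imp fun _ hn i j => nonunit_BRG (hn i j)

end Pool.Agent.MP_3e91a1_nt.DS
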