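import Pool.Agent.MP_3e91a1_nt.DS.St

/-! Devissage when the residual image is a `p`-group. -/

set_option autoImplicit false

open NumberField IsDedekindDomain Module Filter Topology Finset
open scoped Classical

namespace Pool.Agent.MP_3e91a1_nt.DS

open MP_e23604_nt MP_e23604_nt.B MP_e23604_nt.R MP_f3cd89_nt

/-- restriction of an action to a stable subgroup -/
def res_DVP {G A : Type} [Group G] [AddCommGroup A] (a : G → A →+ A)
    (h1 : ∀ x, a 1 x = x) (hm : ∀ g h x, a (g * h) x = a g (a h x)) (M : AddSubgroup A)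
    (hM : ∀ g, ∀ x ∈ M, a g x ∈ M) : G →* AddMonoid.End M where
  toFun g := ((a g).comp M.subtype).codRestrict M fun x => hM g x x.2
  map_one' := AddMonoidHom.ext fun x => Subtype.ext (h1 x)
  map_mul' g h := AddMonoidHom.ext fun x => Subtype.ext (hm g h x)

theorem abs_DVP (hDVA : DVA_st) (hPGF : PGF_st) {p : ℕ} [hp : Fact p.Prime] {G A : Type}
    [Group G] [TopologicalSpace G] [IsTopologicalGroup G] [CompactSpace G] [AddCommGroup A]
    (a : G → A →+ A) (h1 : ∀ x, a 1 x = x) (hm : ∀ g h x, a (g * h) x = a g (a h x))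
    (hl : ∀ x, IsLocallyConstant fun g => a g x) (ht : ∀ x : A, ∃ k : ℕ, p ^ k • x = 0)
    (hu : ∀ g x, ∀ᶠ n : ℕ in atTop, a (g ^ p ^ n) x = x)
    (h0 : H2Zero fun (_ : G) (x : ZMod p) => 1 * x) : H2Zero fun g x => a g x := by
  refine hDVA p G A a hm hl (fun x => ?_) fun M _ hM hg => ?_
  · obtain ⟨k, hk⟩ := ht x
    exact isOfFinAddOrder_iff_nsmul_eq_zero.2 ⟨p ^ k, pow_pos hp.out.pos k, hk⟩
  have : Nontrivial M := (AddSubgroup.nontrivial_iff_ne_bot M).2 hM
  obtain ⟨f, hf, hf'⟩ := hPGF p G M (res_DVP a h1 hm M hg) hp.out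
    (fun x => (ht x).imp fun k hk => Subtype.ext hk) fun g => by
      obtain ⟨n, hn⟩ := (eventually_all.2 fun x : M => hu g x).exists
      refine ⟨n, ?_⟩
      rw [← map_pow]
      exact AddMonoidHom.ext fun x => Subtype.ext (hn x)
  refine ⟨fun _ => 1, f, hf, fun g x y e => ?_, h0⟩
  rw [one_mul, ← hf' g x]
  exact congrArg f (Subtype.ext e)

theorem DVP_pf (hDVA : DVA_st) (hPGF : PGF_st) (hPWM : PWM_st) (hACT : ACT_st) : DVP_st := by
  intro p _ G _ _ _ _ F d ρ hρ hu h0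
  obtain ⟨a1, a2, a3, a4, a5⟩ := hACT p F d
  refine abs_DVP hDVA hPGF (fun g => AddMonoidHom.mk' (matAct (ρ g)) (a2 (ρ g)))
    (fun x => ?_) (fun g h x => ?_) (fun x => a5 G ρ x hρ) a1 (fun g x => ?_) h0
  · change matAct (ρ 1) x = x
    rw [map_one, a4]
  · change matAct (ρ (g * h)) x = matAct (ρ g) (matAct (ρ h) x)
    rw [map_mul, a3]
  · obtain ⟨n₀, hn₀⟩ := hu g
    obtain ⟨N, hN⟩ := eventually_atTop.1 (hPWM p F d (ρ (g ^ p ^ n₀)) x hn₀)
    refine eventually_atTop.2 ⟨n₀ + N, fun n hn => ?_⟩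
    obtain ⟨k, rfl⟩ := Nat.exists_eq_add_of_le hn
    change matAct (ρ (g ^ p ^ (n₀ + N + k))) x = x
    rw [add_assoc, pow_add, pow_mul, map_pow ρ (g ^ p ^ n₀)]
    exact hN _ (Nat.le_add_right N k)

end Pool.Agent.MP_3e91a1_nt.DS
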