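import Pool.Agent.MP_3e91a1_nt.DS.St

/-! A group of elements of `p`-power order has an invariant linear form. -/

set_option autoImplicit false

open NumberField IsDedekindDomain Module Filter Topology Finset
open scoped Classical

namespace Pool.Agent.MP_3e91a1_nt.DS

open MP_e23604_nt MP_e23604_nt.B MP_e23604_nt.R MP_f3cd89_nt

theorem dual1_PGF {A k : Type} [AddCommGroup A] [Field k] [Module k A] {x : A} (hx : x ≠ 0) :
    ∃ f : A →+ k, f x ≠ 0 := by
  obtain ⟨φ, hφ⟩ := not_forall.1 (mt (Module.forall_dual_apply_eq_zero_iff k x).1 hx)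
  exact ⟨φ.toAddMonoidHom, hφ⟩

theorem dual0_PGF {A : Type} [AddCommGroup A] {p : ℕ} [Fact p.Prime] (h : ∀ x : A, p • x = 0)
    {x : A} (hx : x ≠ 0) : ∃ f : A →+ ZMod p, f x ≠ 0 :=
  @dual1_PGF A (ZMod p) _ _ (AddCommGroup.zmodModule h) x hx

theorem form_PGF {M : Type} [AddCommGroup M] [Finite M] [Nontrivial M] {p : ℕ} [Fact p.Prime]
    (h : ∀ x : M, ∃ k : ℕ, p ^ k • x = 0) : ∃ f : M →+ ZMod p, f ≠ 0 := by
  have h1 : ¬ Function.Surjective fun x : M => p • x := by
    intro hs
    have hi := Finite.injective_iff_surjective.2 hs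
    have h2 : ∀ (k : ℕ) (x : M), p ^ k • x = 0 → x = 0 := by
      intro k
      induction k with
      | zero => intro x hx; rwa [pow_zero, one_smul] at hx
      | succ k ih =>
        intro x hx
        rw [pow_succ', mul_smul] at hx
        exact ih x (hi (hx.trans (smul_zero p).symm))
    obtain ⟨x, hx⟩ := exists_ne (0 : M)
    obtain ⟨k, hk⟩ := h x
    exact hx (h2 k x hk)
  obtain ⟨x, hx⟩ := not_forall.1 h1
  let H : AddSubgroup M := (nsmulAddMonoidHom (α := M) p).range
  obtain ⟨φ, hφ⟩ := dual0_PGF (A := M ⧸ H) (p := p) (fun q => by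
    obtain ⟨y, rfl⟩ := QuotientAddGroup.mk_surjective q
    exact (QuotientAddGroup.eq_zero_iff (p • y)).2 ⟨y, rfl⟩) (x := (x : M ⧸ H))
    fun e => hx ((QuotientAddGroup.eq_zero_iff x).1 e)
  exact ⟨φ.comp (QuotientAddGroup.mk' H), fun e => hφ (DFunLike.congr_fun e x)⟩

/-- the action on linear forms -/
def act_PGF {G M N : Type} [Group G] [AddCommGroup M] [AddCommGroup N]
    (a : G →* AddMonoid.End M) : G →* Equiv.Perm (M →+ N) where
  toFun g :=
    { toFun := fun f => f.comp (a g⁻¹)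
      invFun := fun f => f.comp (a g)
      left_inv := fun f => AddMonoidHom.ext fun x => congrArg f (by
        change (a g⁻¹ * a g) x = x
        rw [← map_mul, inv_mul_cancel, map_one]; rfl)
      right_inv := fun f => AddMonoidHom.ext fun x => congrArg f (by
        change (a g * a g⁻¹) x = x
        rw [← map_mul, mul_inv_cancel, map_one]; rfl) }
  map_one' := Equiv.ext fun f => AddMonoidHom.ext fun x => congrArg f (by
    change a 1⁻¹ x = x
    rw [inv_one, map_one]; rfl)
  map_mul' g h := Equiv.ext fun f => AddMonoidHom.ext fun x => congrArg f (by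
    change a (g * h)⁻¹ x = (a h⁻¹ * a g⁻¹) x
    rw [mul_inv_rev, map_mul])

theorem PGF_pf : PGF_st := by
  intro p G M _ _ _ _ a hp hM ha
  have : Fact p.Prime := ⟨hp⟩
  have : Finite (M →+ ZMod p) := DFunLike.finite _
  obtain ⟨f₀, hf₀⟩ := form_PGF hM
  have hd : p ∣ Nat.card (M →+ ZMod p) := by
    have h1 : p • f₀ = 0 := AddMonoidHom.ext fun x => by
      change p • f₀ x = 0
      rw [nsmul_eq_mul, ZMod.natCast_self, zero_mul]
    exact (addOrderOf_eq_prime h1 hf₀).symm.dvd.trans (addOrderOf_dvd_natCard f₀)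
  have hP : IsPGroup p (act_PGF (N := ZMod p) a).range := by
    rintro ⟨_, g, rfl⟩
    obtain ⟨n, hn⟩ := ha g⁻¹
    refine ⟨n, Subtype.ext ?_⟩
    rw [SubgroupClass.coe_pow, ← map_pow]
    refine Equiv.ext fun f => AddMonoidHom.ext fun x => congrArg f ?_
    change a (g ^ p ^ n)⁻¹ x = x
    rw [← inv_pow, map_pow, hn]; rfl
  obtain ⟨f, hf, hne⟩ := hP.exists_fixed_point_of_prime_dvd_card_of_fixed_point (M →+ ZMod p) hd
    (a := 0) (by rintro ⟨_, g, rfl⟩; rfl)
  refine ⟨f, hne.symm, fun g x => ?_⟩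
  have h1 := DFunLike.congr_fun (hf ⟨_, g⁻¹, rfl⟩) x
  change f (a g⁻¹⁻¹ x) = f x at h1
  rwa [inv_inv] at h1

end Pool.Agent.MP_3e91a1_nt.DS
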