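import Pool.Agent.MP_3e91a1_nt.DS.St
import Pool.Agent.MP_3e91a1_nt.WDEV

/-! Powers of a matrix near the identity. -/

set_option autoImplicit false

open NumberField IsDedekindDomain Module Filter Topology Finset
open scoped Classical

namespace Pool.Agent.MP_3e91a1_nt.DS

open MP_e23604_nt MP_e23604_nt.B MP_e23604_nt.R MP_f3cd89_nt

section
variable {R L : Type} [CommRing R] [NormedField L] [IsUltrametricDist L] (φ : R →+* L) {d : ℕ}

theorem mul_PWM {s t : ℝ} (hs : 0 ≤ s) (ht : 0 ≤ t) {y z : Matrix (Fin d) (Fin d) R}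
    (hy : ∀ i j, ‖φ (y i j)‖ ≤ s) (hz : ∀ i j, ‖φ (z i j)‖ ≤ t) (i j : Fin d) :
    ‖φ ((y * z) i j)‖ ≤ s * t := by
  rw [Matrix.mul_apply, map_sum]
  refine IsUltrametricDist.norm_sum_le_of_forall_le_of_nonneg (mul_nonneg hs ht) fun k _ => ?_
  rw [map_mul, norm_mul]
  exact mul_le_mul (hy i k) (hz k j) (norm_nonneg _) hs

theorem step_PWM (h1 : ∀ a, ‖φ a‖ ≤ 1) {p : ℕ} {c t : ℝ} (ht : 0 ≤ t) (hc : t ≤ c)
    (hp : ‖(p : L)‖ ≤ c) {y : Matrix (Fin d) (Fin d) R} (hy : ∀ i j, ‖φ ((y - 1) i j)‖ ≤ t)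
    (i j : Fin d) : ‖φ ((y ^ p - 1) i j)‖ ≤ c * t := by
  rw [← geom_sum_mul]
  refine mul_PWM φ (ht.trans hc) ht (fun i j => ?_) hy i j
  have e : ∑ k ∈ range p, y ^ k = ∑ k ∈ range p, (y ^ k - 1) + (p : Matrix (Fin d) (Fin d) R) := by
    simp
  rw [e, Matrix.add_apply, map_add]
  refine (IsUltrametricDist.norm_add_le_max _ _).trans (max_le ?_ ?_)
  · rw [Matrix.sum_apply, map_sum]
    refine IsUltrametricDist.norm_sum_le_of_forall_le_of_nonneg (ht.trans hc) fun k _ => ?_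
    rw [← geom_sum_mul]
    exact (mul_PWM φ zero_le_one ht (fun _ _ => h1 _) hy i j).trans (by rwa [one_mul])
  · rw [Matrix.natCast_apply]
    split_ifs
    · simpa using hp
    · simpa using ht.trans hc

theorem pow_PWM (h1 : ∀ a, ‖φ a‖ ≤ 1) {p : ℕ} {c : ℝ} (h0 : 0 ≤ c) (hc : c ≤ 1)
    (hp : ‖(p : L)‖ ≤ c) {y : Matrix (Fin d) (Fin d) R} (hy : ∀ i j, ‖φ ((y - 1) i j)‖ ≤ c)
    (n : ℕ) : ∀ i j, ‖φ ((y ^ p ^ n - 1) i j)‖ ≤ c ^ n * c := by
  induction n with
  | zero => simpa using hy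
  | succ n ih =>
    intro i j
    rw [pow_succ p, pow_mul, pow_succ' c, mul_assoc]
    exact step_PWM φ h1 (by positivity) (mul_le_of_le_one_left h0 (pow_le_one₀ h0 hc)) hp ih i j

end

theorem PWM_pf : PWM_st := by
  intro p _ F d m x hm
  let φ : valRing F →+* PadicAlgCl p := (algebraMap F (PadicAlgCl p)).comp (valRing F).subtype
  obtain ⟨c, c1, c2, c3⟩ : ∃ c : ℝ, c < 1 ∧ ‖(p : PadicAlgCl p)‖ ≤ c ∧
      ∀ i j, ‖φ (((m : Matrix (Fin d) (Fin d) (valRing F)) - 1) i j)‖ ≤ c :=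
    ((eventually_mem_nhdsWithin (a := (1 : ℝ)) (s := Set.Iio 1)).and
      (((eventually_ge_nhds p_WDEV).and (eventually_all.2 fun i => eventually_all.2 fun j =>
        eventually_ge_nhds (hm i j))).filter_mono nhdsWithin_le_nhds)).exists
  have c0 : 0 ≤ c := (norm_nonneg _).trans c2
  choose y hy using fun j => Submodule.Quotient.mk_surjective (1 : Submodule (valRing F) F) (x j)
  filter_upwards [eventually_all.2 fun j => (((tendsto_pow_atTop_nhds_zero_of_lt_one c0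
    c1).mul_const c).mul_const ‖(y j : PadicAlgCl p)‖).eventually
      (gt_mem_nhds (a := 1) (by simp))] with n hn
  have key : ∀ i j, ((m : Matrix (Fin d) (Fin d) (valRing F)) ^ p ^ n) i j • x j =
      (1 : Matrix (Fin d) (Fin d) (valRing F)) i j • x j := fun i j => by
    rw [← hy, ← Submodule.Quotient.mk_smul, ← Submodule.Quotient.mk_smul, eq_WDEV, ← sub_smul,
      smul_WDEV]
    exact (mul_le_mul_of_nonneg_right (pow_PWM φ (fun a => a.2) c0 c1.le c2 c3 n i j)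
      (norm_nonneg _)).trans (hn j).le
  funext i
  simp only [matAct, Units.val_pow_eq_pow_val, key]
  simp [Matrix.one_apply]

end Pool.Agent.MP_3e91a1_nt.DS
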