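import Pool.Agent.MP_3e91a1_nt.DS.St

/-! The transfer. -/

set_option autoImplicit false

open NumberField IsDedekindDomain Module Filter Topology Finset
open scoped Classical

namespace Pool.Agent.MP_3e91a1_nt.DS

open MP_e23604_nt MP_e23604_nt.B MP_e23604_nt.R MP_f3cd89_nt

theorem tr_TRN {G A : Type} [Group G] [TopologicalSpace G] [IsTopologicalGroup G] [AddCommGroup A]
    (ρ : G → A →+ A) (H : Subgroup G) (c : G × G → A) (β : H → A) (ho : IsOpen (H : Set G))
    (hi : H.index ≠ 0) (hρ : ∀ g h x, ρ (g * h) x = ρ g (ρ h x))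
    (hc : ∀ g h j, ρ g (c (h, j)) - c (g * h, j) + c (g, h * j) - c (g, h) = 0)
    (lc : IsLocallyConstant c) (lβ : IsLocallyConstant β)
    (hb : ∀ g h : H, c (g, h) = ρ g (β h) - β (g * h) + β g) :
    ∃ b : G → A, IsLocallyConstant b ∧
      ∀ g h, H.index • c (g, h) = ρ g (b h) - b (g * h) + b g := by
  have := Subgroup.fintypeOfIndexNeZero hi
  have hk : ∀ (g : G) (x : G ⧸ H), (g • x).out⁻¹ * (g * x.out) ∈ H := fun g x =>
    QuotientGroup.eq.1 <| by
      rw [QuotientGroup.out_eq']
      exact (MulAction.Quotient.mk_smul_out H g x).symm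
  let k : G → G ⧸ H → H := fun g x => ⟨(g • x).out⁻¹ * (g * x.out), hk g x⟩
  let e : G → G ⧸ H → A := fun g x =>
    c (g, x.out) - c ((g • x).out, k g x) + ρ (g • x).out (β (k g x))
  refine ⟨fun g => ∑ x, e g x, ?_, fun g h => ?_⟩
  · have le : ∀ x, IsLocallyConstant fun g => e g x := by
      intro x
      have l1 : IsLocallyConstant fun g : G => g • x := by
        refine (IsLocallyConstant.iff_eventually_eq _).2 fun g₀ => ?_
        have h1 : Continuous fun g : G => (g * x.out)⁻¹ * (g₀ * x.out) := by fun_prop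
        filter_upwards [(ho.preimage h1).mem_nhds (x := g₀) (by simp)] with g hg
        rw [← MulAction.Quotient.mk_smul_out H g, ← MulAction.Quotient.mk_smul_out H g₀]
        exact QuotientGroup.eq.2 hg
      have l2 : IsLocallyConstant fun g : G => (g • x).out := l1.comp Quotient.out
      have l3 := l2.continuous
      have l4 : Continuous fun g => k g x :=
        (l3.inv.mul (continuous_id.mul continuous_const)).subtype_mk _
      exact ((lc.comp_continuous (continuous_id.prodMk continuous_const)).sub
        (lc.comp_continuous (l3.prodMk (continuous_subtype_val.comp l4)))).add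
        (l2.comp₂ (lβ.comp_continuous l4) fun u v => ρ u v)
    refine (IsLocallyConstant.iff_eventually_eq _).2 fun g₀ => ?_
    filter_upwards [eventually_all.2 fun x => (le x).eventually_eq g₀] with g hg
    exact sum_congr rfl fun x _ => hg x
  · have key : ∀ x, c (g, h) = ρ g (e h x) - e (g * h) x + e g (h • x) := fun x => by
      have e1 : (h • x).out * k h x = h * x.out := mul_inv_cancel_left _ _
      have e2 : (g • h • x).out * k g (h • x) = g * (h • x).out := mul_inv_cancel_left _ _
      have e3 : k (g * h) x = k g (h • x) * k h x := Subtype.ext <| by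
        simp only [k, mul_smul, mul_assoc, Subgroup.coe_mul, mul_inv_cancel_left]
      have a1 := hc g h x.out
      have a2 := hc g (h • x).out (k h x)
      have a3 := hc (g • h • x).out (k g (h • x)) (k h x)
      rw [hb, e2, map_add, map_sub, ← hρ, e2, hρ] at a3
      rw [e1] at a2
      simp only [e, map_add, map_sub, mul_smul, e3, Subgroup.coe_mul]
      linear_combination (norm := abel1) a2 - a1 - a3
    simp only
    rw [map_sum, ← Equiv.sum_comp (MulAction.toPerm h) (e g), ← sum_sub_distrib,
      ← sum_add_distrib, Subgroup.index, Nat.card_eq_fintype_card, ← card_univ, ← sum_const]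
    exact sum_congr rfl fun x _ => key x

theorem TRN_pf : TRN_st := by
  intro p G A _ _ _ _ _ a W hp ho hd hadd hmul _ htor hW c lc hc
  obtain ⟨β, lβ, hβ⟩ := hW (fun x : W × W => c (x.1, x.2))
    (lc.comp_continuous (f := fun x : W × W => ((x.1 : G), (x.2 : G))) (by fun_prop))
    fun g h j => hc g h j
  obtain ⟨b, lb, hb⟩ := tr_TRN (fun g => AddMonoidHom.mk' (a g) (hadd g)) W c β ho
    (fun h => hd (h ▸ dvd_zero p)) hmul hc lc lβ hβ
  choose k hk using htor
  obtain ⟨K, hK⟩ := (lc.range_finite.image k).bddAbove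
  have hz : ∀ y, p ^ (K + 1) • c y = 0 := fun y => by
    obtain ⟨m, hm⟩ := Nat.exists_eq_add_of_le
      ((hK ⟨c y, ⟨y, rfl⟩, rfl⟩).trans (Nat.le_succ K) : k (c y) ≤ K + 1)
    rw [hm, add_comm, pow_add, mul_smul, hk, smul_zero]
  obtain ⟨u, -, hu⟩ := Nat.exists_mul_mod_eq_one_of_coprime
    (((Nat.Prime.coprime_iff_not_dvd hp).2 hd).symm.pow_right (K + 1))
    (Nat.one_lt_pow K.succ_ne_zero hp.one_lt)
  refine ⟨fun g => u • b g, lb.comp fun x => u • x, fun g h => ?_⟩
  have h1 := congrArg (fun x => u • x) (hb g h)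
  simp only [smul_add, smul_sub, ← map_nsmul, smul_smul] at h1
  rw [mul_comm, ← Nat.div_add_mod (W.index * u) (p ^ (K + 1)), hu, add_smul, one_smul, mul_comm,
    mul_smul, hz, smul_zero, zero_add] at h1
  exact h1

end Pool.Agent.MP_3e91a1_nt.DS
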