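import Pool.Agent.MP_3e91a1_nt.DS.Main
import Pool.Agent.MP_3e91a1_nt.DS.DSN
import Pool.Agent.MP_3e91a1_nt.DS.ACT
import Pool.Agent.MP_3e91a1_nt.DS.DVP
import Pool.Agent.MP_3e91a1_nt.DS.IDX
import Pool.Agent.MP_3e91a1_nt.DS.ISO
import Pool.Agent.MP_3e91a1_nt.DS.IXW
import Pool.Agent.MP_3e91a1_nt.DS.PGF
import Pool.Agent.MP_3e91a1_nt.DS.PWM
import Pool.Agent.MP_3e91a1_nt.DS.TPA
import Pool.Agent.MP_3e91a1_nt.DS.TPW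
import Pool.Agent.MP_3e91a1_nt.DS.TRN

set_option autoImplicit false

namespace Pool.Agent.MP_3e91a1_nt.DS

theorem dsn_ok : DSN_st := DSN_pf GOOD_ok MEM_ok TRN_pf ISO_pf IDX_pf (IXW_pf MEM_ok)
  (TPW_pf (TPA_pf MAIN_ok EXT_ok) MEM_ok GAL_ok BAD_ok) ACT_pf
  (DVP_pf DVA_ok PGF_pf PWM_pf ACT_pf)

end Pool.Agent.MP_3e91a1_nt.DS
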