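import Pool.Agent.MP_3e91a1_nt.DS.StE

set_option autoImplicit false

open NumberField Polynomial

noncomputable section

namespace Pool.Agent.MP_3e91a1_nt.DS

open FM

theorem dvd_DGS {F L : Type*} [Field F] [Field L] [Algebra F L] (K : IntermediateField F L)
    [FiniteDimensional F K] {z : L} (hz : z ∈ K) {q : F[X]} (hm : q.Monic) (h2 : 2 ≤ q.natDegree)
    (h3 : q.natDegree ≤ 3) (hr : ∀ r : F, q.eval r ≠ 0) (h0 : aeval z q = 0) :
    q.natDegree ∣ Module.finrank F K := by
  have hi : Irreducible q := by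
    rw [hm.irreducible_iff_roots_eq_zero_of_degree_le_three h2 h3,
      Multiset.eq_zero_iff_forall_notMem]
    intro r h
    exact hr r ((mem_roots hm.ne_zero).1 h)
  have h1 : aeval (⟨z, hz⟩ : K) q = 0 := by
    rw [← aeval_algebraMap_eq_zero_iff (B := L)]
    exact h0
  rw [minpoly.eq_of_irreducible_of_monic hi h1 hm]
  exact minpoly.degree_dvd (IsIntegral.of_finite F (⟨z, hz⟩ : K))

theorem cub_DGS (T : ℕ) (hT : 1 ≤ T) (r : ℚ) : r ^ 3 + T * r + T ≠ 0 := by
  intro h
  have hm : (X ^ 3 + C (T : ℤ) * X + C (T : ℤ) : ℤ[X]).Monic := by monicity!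
  obtain ⟨n, rfl⟩ := isInteger_of_is_root_of_monic (K := ℚ) (r := r) hm (by simpa using h)
  have h1 : n ^ 3 + T * n + T = 0 := by
    have : ((n ^ 3 + T * n + T : ℤ) : ℚ) = 0 := by simpa using h
    exact_mod_cast this
  have h2 : (n + 1) * (n ^ 2 - n + 1 + T) = 1 := by linear_combination h1
  rcases Int.eq_one_or_neg_one_of_mul_eq_one h2 with h3 | h3
  · have : n = 0 := by omega
    subst this
    omega
  · have : n = -2 := by omega
    subst this
    omega

theorem DGS_pf : DGS_st := by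
  intro T w hT hw
  have e : sxf.map (evalRingHom (T : ℤ)) =
      (X ^ 2 + X + 1) ^ 3 + C (T : ℤ) * (X ^ 2 * (X + 1) ^ 2) := by
    simp [sxf]
  rw [e] at hw ⊢
  obtain ⟨p, hp⟩ : ∃ p : ℤ[X], p = (X ^ 2 + X + 1) ^ 3 + C (T : ℤ) * (X ^ 2 * (X + 1) ^ 2) :=
    ⟨_, rfl⟩
  have pm : p.Monic := by rw [hp]; monicity!
  have pd : p.natDegree = 6 := by rw [hp]; compute_degree!
  have h0 : (w ^ 2 + w + 1) ^ 3 + T * (w ^ 2 * (w + 1) ^ 2) = 0 := by simpa using hw
  rw [← hp] at hw ⊢
  have qm : (p.map (algebraMap ℤ ℚ)).Monic := pm.map _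
  have q0 : aeval w (p.map (algebraMap ℤ ℚ)) = 0 := by rw [aeval_map_algebraMap]; exact hw
  have qd : (p.map (algebraMap ℤ ℚ)).natDegree = 6 := by rw [pm.natDegree_map, pd]
  have hi : IsIntegral ℚ w := ⟨_, qm, q0⟩
  have := IntermediateField.adjoin.finiteDimensional hi
  have w0 : w ≠ 0 := by rintro rfl; simp at h0
  have w1 : w + 1 ≠ 0 := by
    intro h
    have : w = -1 := eq_neg_of_add_eq_zero_left h
    subst this
    norm_num at h0
  have hm := IntermediateField.mem_adjoin_simple_self ℚ w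
  have h1 := (IntermediateField.adjoin ℚ {w}).one_mem
  have d3 : (X ^ 3 + C (T : ℚ) * X + C (T : ℚ) : ℚ[X]).natDegree = 3 := by compute_degree!
  have d2 : (X ^ 2 + C (4 * T + 27 : ℚ) : ℚ[X]).natDegree = 2 := natDegree_X_pow_add_C
  have a3 := dvd_DGS (IntermediateField.adjoin ℚ {w}) (z := -(w ^ 2 + w + 1) / (w * (w + 1)))
    (div_mem (neg_mem (add_mem (add_mem (pow_mem hm 2) hm) h1)) (mul_mem hm (add_mem hm h1)))
    (q := X ^ 3 + C (T : ℚ) * X + C (T : ℚ)) (by monicity!) (by omega) (by omega)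
    (fun r => by simpa using cub_DGS T hT r) (by
      simp only [map_add, map_mul, map_pow, aeval_X, map_natCast]
      field_simp
      linear_combination -h0)
  have a2 := dvd_DGS (IntermediateField.adjoin ℚ {w})
    (z := (w - 1) * (w + 1 + 1) * (w + w + 1) / (w * (w + 1)))
    (div_mem (mul_mem (mul_mem (sub_mem hm h1) (add_mem (add_mem hm h1) h1))
      (add_mem (add_mem hm hm) h1)) (mul_mem hm (add_mem hm h1)))
    (q := X ^ 2 + C (4 * T + 27 : ℚ)) (monic_X_pow_add_C _ two_ne_zero) (by omega) (by omega)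
    (fun r => by
      rw [eval_add, eval_pow, eval_X, eval_C]
      positivity) (by
      simp only [map_add, map_mul, map_pow, aeval_X, map_natCast, map_ofNat]
      field_simp
      linear_combination 4 * h0)
  rw [d3] at a3
  rw [d2] at a2
  have b1 := IntermediateField.adjoin.finrank hi
  have b2 : (minpoly ℚ w).natDegree ≤ 6 :=
    qd ▸ natDegree_le_of_dvd (minpoly.dvd ℚ w q0) qm.ne_zero
  have b3 := minpoly.natDegree_pos hi
  have b4 : (minpoly ℚ w).natDegree = 6 := by omega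
  refine ⟨b1.trans b4, ?_⟩
  rw [pm.irreducible_iff_irreducible_map_fraction_map (K := ℚ),
    eq_of_monic_of_dvd_of_natDegree_le (minpoly.monic hi) qm (minpoly.dvd ℚ w q0) (by omega)]
  exact minpoly.irreducible hi

end Pool.Agent.MP_3e91a1_nt.DS
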