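import Pool.Agent.MP_3e91a1_nt.DS.StE
import Pool.Agent.MP_3e91a1_nt.FM.EXM

/-! The sextic family has two independent units. -/

set_option autoImplicit false

open Finset Polynomial

noncomputable section

namespace Pool.Agent.MP_3e91a1_nt.DS

open FM

theorem monic_EXS : sxf.Monic := by
  unfold sxf
  monicity!

theorem unit_EXS (i : Fin 2) : AdjoinRoot.mk sxf (X + (i.val : P2)) * AdjoinRoot.mk sxf
    (-(X + (1 - (i.val : P2))) * ((X * (X + 1)) ^ 2 + 3 * (X * (X + 1)) + 3 +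
      C X * (X * (X + 1)))) = 1 := by
  rw [← map_mul, ← map_one (AdjoinRoot.mk sxf), AdjoinRoot.mk_eq_mk]
  refine ⟨-1, ?_⟩
  unfold sxf
  fin_cases i
  · simp only [Nat.cast_zero]
    ring
  · simp only [Nat.cast_one]
    ring

theorem EXS_pf : EXS_st := by
  refine ⟨monic_EXS, fun i => Units.mkOfMulEqOne _ _ (unit_EXS i), fun e he => ?_⟩
  let G : Fin 2 → ℚ[X] := fun i => X + C (i.val : ℚ)
  have hd : ∀ i, 0 < (G i).natDegree := fun i => by
    rw [natDegree_X_add_C]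
    exact one_pos
  have h01 : IsCoprime (G 0) (G 1) := ⟨-1, 1, by simp [G]⟩
  have hc : ∀ i j, i ≠ j → IsCoprime (G i) (G j) := by
    intro i j hij
    fin_cases i <;> fin_cases j
    · exact absurd rfl hij
    · exact h01
    · exact h01.symm
    · exact absurd rfl hij
  have ha : ∀ i, algebraMap ℚ[X] (RatFunc ℚ) (G i) = RatFunc.X + (i.val : RatFunc ℚ) := fun i => by
    rw [map_add, RatFunc.algebraMap_X, map_natCast, map_natCast]
  have ha0 : ∀ i : Fin 2, (RatFunc.X : RatFunc ℚ) + (i.val : RatFunc ℚ) ≠ 0 := fun i =>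
    ha i ▸ RatFunc.algebraMap_ne_zero (monic_X_add_C _).ne_zero
  have hx0 : (RatFunc.X : RatFunc ℚ) ≠ 0 := RatFunc.X_ne_zero
  have hx1 : (RatFunc.X : RatFunc ℚ) + 1 ≠ 0 := by simpa using ha0 1
  let φ : ℤ[X] →+* RatFunc ℚ := eval₂RingHom (Int.castRingHom _)
    (-(RatFunc.X ^ 2 + RatFunc.X + 1) ^ 3 / (RatFunc.X ^ 2 * (RatFunc.X + 1) ^ 2))
  have e2 : sxf.eval₂ φ RatFunc.X = 0 := by
    have h : φ X = -(RatFunc.X ^ 2 + RatFunc.X + 1) ^ 3 / (RatFunc.X ^ 2 * (RatFunc.X + 1) ^ 2) :=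
      eval₂_X _ _
    simp only [sxf, eval₂_add, eval₂_mul, eval₂_pow, eval₂_X, eval₂_C, eval₂_one]
    rw [h, div_mul_cancel₀ _ (mul_ne_zero (pow_ne_zero _ hx0) (pow_ne_zero _ hx1)), add_neg_cancel]
  let ψ := AdjoinRoot.lift φ RatFunc.X e2
  have e3 : ψ ((∏ i, Units.mkOfMulEqOne _ _ (unit_EXS i) ^ e i : (AdjoinRoot sxf)ˣ) :
      AdjoinRoot sxf) = ∏ i, algebraMap ℚ[X] (RatFunc ℚ) (G i) ^ e i := by
    rw [Units.coe_prod, map_prod]
    refine prod_congr rfl fun i _ => ?_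
    have h : ψ (AdjoinRoot.mk sxf (X + (i.val : P2))) = algebraMap ℚ[X] (RatFunc ℚ) (G i) := by
      rw [AdjoinRoot.lift_mk, eval₂_add, eval₂_X, eval₂_natCast, ha]
    rw [← h]
    exact map_zpow (ψ.toMonoidHom.comp (Units.coeHom _)) _ (e i)
  rintro ⟨P, hP, h0⟩
  refine RatFunc.transcendental_of_ne_C _ (con_EXM G hd hc e he)
    ⟨P.map (Int.castRingHom ℚ), (Polynomial.map_ne_zero_iff Int.cast_injective).2 hP, ?_⟩
  have h1 := congrArg ψ h0
  rw [map_zero, aeval_def, hom_eval₂, e3] at h1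
  exact (eval₂_map _ _ _).trans ((congrArg (fun f => P.eval₂ f _) (RingHom.ext_int _ _)).trans h1)

end Pool.Agent.MP_3e91a1_nt.DS
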