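import Pool.Agent.MP_3e91a1_nt.DS.StE

/-! The sextic fields of the family are Galois, not abelian, of unit rank two. -/

set_option autoImplicit false

open NumberField Polynomial

noncomputable section

namespace Pool.Agent.MP_3e91a1_nt.DS

open FM

theorem aut_GLS {K : Type} [Field K] [Algebra ℚ K] (pb : PowerBasis ℚ K) (T : ℕ)
    (h6 : Module.finrank ℚ K = 6)
    (hx : (pb.gen ^ 2 + pb.gen + 1) ^ 3 + T * (pb.gen ^ 2 * (pb.gen + 1) ^ 2) = 0) (y : K)
    (hy : (y ^ 2 + y + 1) ^ 3 + T * (y ^ 2 * (y + 1) ^ 2) = 0) :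
    ∃ g : K ≃ₐ[ℚ] K, g pb.gen = y := by
  have := pb.finite
  have hm : ((X ^ 2 + X + 1) ^ 3 + C (T : ℚ) * (X ^ 2 * (X + 1) ^ 2) : ℚ[X]).Monic := by
    monicity!
  have hd : ((X ^ 2 + X + 1) ^ 3 + C (T : ℚ) * (X ^ 2 * (X + 1) ^ 2) : ℚ[X]).natDegree ≤ 6 := by
    compute_degree
  have e := eq_of_monic_of_dvd_of_natDegree_le (minpoly.monic pb.isIntegral_gen) hm
    (minpoly.dvd ℚ pb.gen (by simpa using hx))
    (by rw [pb.natDegree_minpoly, ← pb.finrank, h6]; exact hd)
  have h1 : aeval y (minpoly ℚ pb.gen) = 0 := by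
    rw [← e]
    simpa using hy
  exact ⟨AlgEquiv.ofBijective (pb.lift y h1) (pb.lift y h1).bijective, pb.lift_gen y h1⟩

theorem main_GLS {K : Type} [Field K] [NumberField K] [A : Algebra ℚ K] (pb : PowerBasis ℚ K)
    (T : ℕ) (hT : 1 ≤ T) (h6 : Module.finrank ℚ K = 6)
    (hx : (pb.gen ^ 2 + pb.gen + 1) ^ 3 + T * (pb.gen ^ 2 * (pb.gen + 1) ^ 2) = 0) :
    IsGalois ℚ K ∧ (∃ g h : K ≃ₐ[ℚ] K, g * h ≠ h * g) ∧ Units.rank K = 2 := by
  obtain rfl : A = DivisionRing.toRatAlgebra := Subsingleton.elim _ _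
  have x0 : pb.gen ≠ 0 := fun h => by
    rw [h] at hx
    norm_num at hx
  have x1 : pb.gen + 1 ≠ 0 := fun h => by
    rw [h, add_assoc, h, eq_neg_of_add_eq_zero_left h] at hx
    norm_num at hx
  obtain ⟨g, hg⟩ := aut_GLS pb T h6 hx (-1 - pb.gen) (by linear_combination hx)
  obtain ⟨h, hh⟩ := aut_GLS pb T h6 hx pb.gen⁻¹ (by
    field_simp
    linear_combination hx)
  have hn : g * h ≠ h * g := fun e => by
    have e1 := DFunLike.congr_fun e pb.gen
    rw [AlgEquiv.mul_apply, AlgEquiv.mul_apply, hh, hg, map_inv₀, map_sub, map_neg, map_one, hg,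
      hh] at e1
    have x2 : -1 - pb.gen ≠ 0 := fun a => x1 (by linear_combination -a)
    field_simp at e1
    have e2 : pb.gen ^ 2 + pb.gen + 1 = 0 := by linear_combination -e1
    rw [e2] at hx
    have e3 : (T : K) ≠ 0 := Nat.cast_ne_zero.2 (by omega)
    simp [e3, x0, x1] at hx
  refine ⟨IsGalois.of_card_aut_eq_finrank ℚ K ?_, ⟨g, h, hn⟩, ?_⟩
  · have h1 : Nat.card (K ≃ₐ[ℚ] K) ∣ 6 := by
      rw [← h6, ← Subgroup.card_top, ← IntermediateField.finrank_fixedField_eq_card,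
        ← Module.finrank_mul_finrank ℚ (IntermediateField.fixedField (⊤ : Subgroup (K ≃ₐ[ℚ] K))) K]
      exact dvd_mul_left _ _
    have h2 : ∀ p : ℕ, p.Prime → Nat.card (K ≃ₐ[ℚ] K) ≠ p := fun p hp e => by
      have := Fact.mk hp
      have := isCyclic_of_prime_card e
      exact hn (mul_comm' g h)
    have h3 : Nat.card (K ≃ₐ[ℚ] K) ≠ 1 := fun e =>
      hn ((Nat.card_eq_one_iff_unique.1 e).1.elim _ _)
    have h4 := h2 2 Nat.prime_two
    have h5 := h2 3 Nat.prime_three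
    have h7 := Nat.le_of_dvd (by norm_num) h1
    rw [h6]
    generalize Nat.card (K ≃ₐ[ℚ] K) = n at *
    interval_cases n <;> omega
  · have : IsTotallyComplex K := ⟨fun v => InfinitePlace.not_isReal_iff_isComplex.1 fun hv => by
      have e := congrArg (InfinitePlace.embedding_of_isReal hv) hx
      simp only [map_add, map_pow, map_mul, map_one, map_natCast, map_zero] at e
      generalize InfinitePlace.embedding_of_isReal hv pb.gen = y at e
      have a1 : 0 < y ^ 2 + y + 1 := by nlinarith [sq_nonneg (2 * y + 1)]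
      have a2 : 0 < (y ^ 2 + y + 1) ^ 3 + T * (y ^ 2 * (y + 1) ^ 2) := by positivity
      exact a2.ne' e⟩
    have h1 := InfinitePlace.card_add_two_mul_card_eq_rank K
    have h2 := InfinitePlace.card_eq_nrRealPlaces_add_nrComplexPlaces K
    have h3 := IsTotallyComplex.nrRealPlaces_eq_zero K
    unfold Units.rank
    omega

theorem GLS_pf (hDGS : DGS_st) : GLS_st := by
  intro T w _ hT hw
  have h1 : (w ^ 2 + w + 1) ^ 3 + T * (w ^ 2 * (w + 1) ^ 2) = 0 := by
    simpa [sxf] using hw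
  have hi : IsIntegral ℚ w := ((AlgebraicClosure.isAlgebraic ℚ).isAlgebraic w).isIntegral
  refine main_GLS (IntermediateField.adjoin.powerBasis hi) T hT (hDGS T w hT hw).1 ?_
  refine (algebraMap (IntermediateField.adjoin ℚ {w}) (AlgebraicClosure ℚ)).injective ?_
  simpa using h1

end Pool.Agent.MP_3e91a1_nt.DS
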