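import Pool.Agent.MP_3e91a1_nt.DS.All
import Pool.Agent.MP_3e91a1_nt.DS.EXS
import Pool.Agent.MP_3e91a1_nt.DS.DGS
import Pool.Agent.MP_3e91a1_nt.DS.GLS
import Pool.Agent.MP_3e91a1_nt.FM.EXM
import Pool.Agent.MP_3e91a1_nt.FM.IRR

/-! Examples of families: the hypotheses of the theorems hold for them. -/

set_option autoImplicit false

open Filter NumberField Polynomial

namespace Pool.Agent.MP_3e91a1_nt.DS

open FM

/-- The Galois sextic fields with non-abelian group: no condition on the parameter is left. -/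
theorem sextic (δ ε : ℝ) (hδ : 0 < δ) (hε : 0 < ε) : ∀ᶠ M : ℕ in atTop,
    ∀ (w : ℕ → AlgebraicClosure ℚ) [∀ T, NumberField (IntermediateField.adjoin ℚ {w T})],
      (∀ T : ℕ, aeval (w T) (sxf.map (evalRingHom (T : ℤ))) = 0) →
      ∀ᶠ x : ℕ in atTop, (Set.ncard {T : ℕ | 1 ≤ T ∧ T ≤ M ∧
        (Set.ncard {p : ℕ | p ≤ x ∧ ∃ _ : Fact p.Prime,
          ∀ K : IntermediateField ℚ (AlgebraicClosure ℚ),
            WL.PExt p (IntermediateField.adjoin ℚ {w T}) (IntermediateField.adjoin ℚ {w T} ⊔ K) →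
            WL.WeakLeopoldtP p K (AlgebraicClosure ℚ) (IntermediateField.adjoin ℚ {w T})} : ℝ) <
          (1 - δ) * x / Real.log x} : ℝ) ≤ ε * M := by
  obtain ⟨hf, u, hu⟩ := EXS_pf
  filter_upwards [cth_ok 2 sxf u hf hu δ ε hδ hε] with M hM w _ hw
  filter_upwards [hM (fun T => IntermediateField.adjoin ℚ {w T}) _ fun T p hp h =>
    (⟨hp, fun K hK => dsn_ok p _ K h (pext_BRG hK)⟩ : ∃ _ : Fact p.Prime,
      ∀ K : IntermediateField ℚ (AlgebraicClosure ℚ),
        WL.PExt p (IntermediateField.adjoin ℚ {w T}) (IntermediateField.adjoin ℚ {w T} ⊔ K) →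
        WL.WeakLeopoldtP p K (AlgebraicClosure ℚ) (IntermediateField.adjoin ℚ {w T}))] with x hx
  refine le_trans (Nat.cast_le.2 (Set.ncard_le_ncard (fun T hT => ?_)
    ((Set.finite_le_nat M).subset fun T hT => hT.2.1))) hx
  exact ⟨hT.1, hT.2.1, (DGS_pf T _ hT.1 (hw T)).2,
    ⟨_, IntermediateField.mem_adjoin_simple_self ℚ _, hw T⟩,
    (GLS_pf DGS_pf T _ hT.1 (hw T)).2.2.le, hT.2.2⟩

/-- The families of products: independent units, and irreducible for all large parameters. -/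
theorem products (m : ℕ) (g : Fin m → ℤ[X]) (h1 : ∀ i, (g i).Monic ∧ 0 < (g i).natDegree)
    (h2 : ∀ i j, i ≠ j →
      IsCoprime ((g i).map (Int.castRingHom ℚ)) ((g j).map (Int.castRingHom ℚ))) :
    ((exf g).Monic ∧ ∃ u : Fin m → (AdjoinRoot (exf g))ˣ, ∀ e : Fin m → ℤ, e ≠ 0 →
      Transcendental ℤ ((∏ i, u i ^ e i : (AdjoinRoot (exf g))ˣ) : AdjoinRoot (exf g))) ∧
    ∀ᶠ T : ℕ in atTop, Irreducible ((exf g).map (evalRingHom (T : ℤ))) := by
  refine ⟨EXM_pf m g h1 h2, ?_⟩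
  filter_upwards [IRR_pf (∏ i, g i) (monic_prod_of_monic _ _ fun i _ => (h1 i).1)] with T hT
  have e : (evalRingHom (T : ℤ)).comp (C : ℤ →+* ℤ[X]) = RingHom.id ℤ := RingHom.ext_int _ _
  simpa [exf, Polynomial.map_prod, Polynomial.map_map, e] using hT

end Pool.Agent.MP_3e91a1_nt.DS
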