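import Pool.Agent.MP_3e91a1_nt.FM.St

/-! Statements on an example: a family of Galois sextic fields with non-abelian group. -/

set_option autoImplicit false

open NumberField Polynomial

noncomputable section

namespace Pool.Agent.MP_3e91a1_nt.DS

open FM

/-- the equation of the family -/
def sxf : P2 := (X ^ 2 + X + 1) ^ 3 + C X * (X ^ 2 * (X + 1) ^ 2)

/-- two independent units -/
def EXS_st : Prop := sxf.Monic ∧ ∃ u : Fin 2 → (AdjoinRoot sxf)ˣ, ∀ e : Fin 2 → ℤ, e ≠ 0 →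
  Transcendental ℤ ((∏ i, u i ^ e i : (AdjoinRoot sxf)ˣ) : AdjoinRoot sxf)

/-- the degree of the fields -/
def DGS_st : Prop := ∀ (T : ℕ) (w : AlgebraicClosure ℚ), 1 ≤ T →
  aeval w (sxf.map (evalRingHom (T : ℤ))) = 0 →
  Module.finrank ℚ (IntermediateField.adjoin ℚ {w}) = 6 ∧
    Irreducible (sxf.map (evalRingHom (T : ℤ)))

/-- the fields are Galois, not abelian, of unit rank two -/
def GLS_st : Prop := ∀ (T : ℕ) (w : AlgebraicClosure ℚ)
  [NumberField (IntermediateField.adjoin ℚ {w})], 1 ≤ T →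
  aeval w (sxf.map (evalRingHom (T : ℤ))) = 0 →
  IsGalois ℚ (IntermediateField.adjoin ℚ {w}) ∧
    (∃ g h : IntermediateField.adjoin ℚ {w} ≃ₐ[ℚ] IntermediateField.adjoin ℚ {w}, g * h ≠ h * g) ∧
    Units.rank (IntermediateField.adjoin ℚ {w}) = 2

end Pool.Agent.MP_3e91a1_nt.DS
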